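import Pool.Agent.Helper52.SZ.Defs
import Pool.Agent.Helper72.SZ.Popular

/-!
# Project SZ, module SZ-2: the multidimensional density Hales-Jewett theorem
-/

namespace Pool.Agent.Helper52.SZ

open Combinatorics

section mdhj

variable {ι κ κ' β : Type}

/-- the constant subspace -/
def mdhj_const (w : ι → β) : Subspace (Fin 0) β ι where
  idxFun j := Sum.inl (w j)
  proper e := e.elim0

theorem mdhj_const_apply (w : ι → β) (x : Fin 0 → β) : mdhj_const w x = w := by
  funext j
  simp [Subspace.coe_apply, mdhj_const]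

/-- a line on the first block and a subspace on the second block -/
def mdhj_glue {d : ℕ} (e : ι ≃ κ ⊕ κ') (l : Line β κ) (V : Subspace (Fin d) β κ') :
    Subspace (Fin (d + 1)) β ι where
  idxFun j := Sum.elim (fun p => (l.idxFun p).elim (Sum.inr 0) Sum.inl)
    (fun q => (V.idxFun q).map id Fin.succ) (e j)
  proper i := by
    refine Fin.cases ?_ (fun i => ?_) i
    · obtain ⟨p, hp⟩ := l.proper
      exact ⟨e.symm (Sum.inl p), by simp [hp]⟩
    · obtain ⟨q, hq⟩ := V.proper i
      exact ⟨e.symm (Sum.inr q), by simp [hq]⟩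

theorem mdhj_glue_apply {d : ℕ} (e : ι ≃ κ ⊕ κ') (l : Line β κ) (V : Subspace (Fin d) β κ')
    (x : Fin (d + 1) → β) :
    mdhj_glue e l V x = glue e (l (x 0)) (V (fun i => x i.succ)) := by
  funext j
  rw [Subspace.coe_apply]
  simp only [mdhj_glue, glue]
  cases e j with
  | inl p =>
    simp only [Sum.elim_inl]
    rw [Line.coe_apply]
    cases l.idxFun p <;> rfl
  | inr q =>
    simp only [Sum.elim_inr]
    rw [Subspace.coe_apply]
    cases V.idxFun q <;> rfl

end mdhj

theorem mdhj_of_dhj {β : Type} [Finite β] [Nonempty β] (h : DHJ β) : MDHJ β := by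
  intro d
  induction d with
  | zero =>
    intro δ hδ
    refine ⟨0, fun ι _ _ A hA => ?_⟩
    obtain ⟨w, hw⟩ := nonempty_of_dn_pos (lt_of_lt_of_le hδ hA)
    exact ⟨mdhj_const w, fun x => by rw [mdhj_const_apply]; exact hw⟩
  | succ d ih =>
    intro δ hδ
    obtain ⟨a, ha⟩ := h (δ / 2) (by positivity)
    have hδ' : 0 < (δ / 2) / ((Nat.card β : ℝ) + 1) ^ a := by positivity
    obtain ⟨n', hn'⟩ := ih _ hδ'
    refine ⟨a + n', fun ι _ hι A hA => ?_⟩
    obtain ⟨κ', hκ', ⟨e⟩, hcard⟩ := exists_split (n := a) (ι := ι) (by omega)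
    have hZ : 2 * (δ / 2) ≤ av (fun z : κ' → β => dn {w : Fin a → β | glue e w z ∈ A}) := by
      rw [← dn_glue]
      linarith
    obtain ⟨l, hl⟩ := popular_line (β := β) (κ := Fin a) (Z := κ' → β) (c := δ / 2)
      (by positivity) (fun B hB => ha (Fin a) (by simp) B hB)
      (fun w z => glue e w z ∈ A) hZ
    have hca : Nat.card (Fin a) = a := by simp
    rw [hca] at hl
    obtain ⟨V', hV'⟩ := hn' κ' (by omega) {z | ∀ x, glue e (l x) z ∈ A} hl
    exact ⟨mdhj_glue e l V', fun x => by rw [mdhj_glue_apply]; exact hV' _ _⟩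

end Pool.Agent.Helper52.SZ
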